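import Pool.Agent.H63.STAT.CloF
import Pool.Agent.H3.W.Nlp
import Pool.Agent.H31.W1.H80.GEN.Chn

/-!
# From chains of two-sided labels to exact closed labels (row N1)

`clo_fam`: chains of two-sided labels for the radii `w₀ + k z`, `k ≤ M`, and the window `w₀` give,
on an event of probability at least a constant, the exact labels `CDat` with the conditions `Cnd`.
-/

set_option autoImplicit false

namespace Pool.W.STAT

open Pool.STAT

open Finset MvPolynomial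
open Pool.Agent.H49.Ent Pool.Agent.H32.Dense Pool.STK Pool.KS3 Pool.KA Pool.KSAT Pool.PB Pool.GEN
open Pool.K2S

variable {m J : ℕ}

namespace CLO

open Pool.STAT.CLO

/-! ### Translation of polynomials along a chain -/


section sy

variable {c : ℕ → Fin m} {n : ℕ} {t : ℝ} {G : ℕ → MvPolynomial (Option (Fin m)) ℝ}


end sy

/-! ### The cell of the time -/


section raw

variable {F : Pool.KA.Fam m J} {c : ℕ → Fin m} {n : ℕ} {Kv : ℕ → ℕ} {a w₀ e : ℕ} {g : ℕ → ℕ}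
  {A : F.Ω → Prop} {G : Pool.GEN.PtT F → ℕ → MvPolynomial (Option (Fin m)) ℝ}
  {H : Pool.GEN.LnT F → ℕ → MvPolynomial (Option (Fin m)) ℝ}


theorem raw_of (n K : ℕ) : ∃ s₀ : ℕ, ∀ (m J : ℕ) (F : Pool.KA.Fam m J) (c : ℕ → Fin m) (Kv : ℕ → ℕ)
    (a w₀ e : ℕ) (g : ℕ → ℕ) (A : F.Ω → Prop) (G : Pool.GEN.PtT F → ℕ → MvPolynomial (Option (Fin m)) ℝ)
    (H : Pool.GEN.LnT F → ℕ → MvPolynomial (Option (Fin m)) ℝ), w₀ ≤ a → a ≤ J → Pool.STAT.CLO.Inj c n →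
    (∀ i < n, Kv i ≤ K) → Pool.W.GEN.ChOK F c n Kv a w₀ e g A G H →
    Pool.STAT.CLO.Raw n K (2 ^ s₀) A (Pool.PB.ptr F J) (Pool.KSAT.slam F a) (Pool.STAT.CLO.tp a) (Pool.STAT.CLO.tl a) (Pool.STAT.CLO.gg a g) (Pool.STAT.CLO.Gs c n a G)
      (fun s => Pool.STAT.CLO.Hs c n H (Pool.STAT.CLO.crs w₀ a s)) := by
  obtain ⟨C, hC, hdil⟩ := Pool.STAT.CLO.dil n K
  obtain ⟨K₁, hK₁⟩ : ∃ K₁, K₁ = K * (K + 1) ^ (n + 1) := ⟨_, rfl⟩
  rw [← hK₁] at hdil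
  obtain ⟨s₀, hs₀⟩ := pow_unbounded_of_one_lt (C * 2 ^ K₁) (one_lt_two (α := ℝ))
  refine ⟨s₀, ?_⟩
  intro m J F c Kv a w₀ e g A G H hw ha hc hK h
  have hGK : ∀ y, ∀ i < n, (G y i).totalDegree ≤ K := fun y i hi => (h.degG y i).trans (hK i hi)
  have hHK : ∀ s, ∀ i < n, (H s i).totalDegree ≤ K := fun s i hi => (h.degH s i).trans (hK i hi)
  refine ⟨fun y => Pool.STAT.CLO.sy_tri, fun y i => Pool.STAT.CLO.sy_deg (hGK y) i, fun s => Pool.STAT.CLO.sy_tri, fun s i =>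
    Pool.STAT.CLO.sy_deg (hHK _) i, fun y => Pool.STAT.CLO.sy_zero, fun ω _ => by rw [Pool.STAT.CLO.tp_eq, Pool.STAT.CLO.tl_eq], ?_⟩
  intro ω hω i hi1 hi b hb
  obtain ⟨i, rfl⟩ : ∃ i', i = i' + 1 := ⟨i - 1, by omega⟩
  have h1 := Pool.STAT.CLO.bxr_cell ha ω (by omega) hb
  rw [Pool.STAT.CLO.crs_eq F hw ha ω]
  have h2 : Pool.STAT.CLO.gg a g (i + 1) = g i := if_neg (by omega)
  obtain ⟨D, hD⟩ : ∃ D, D = Pool.STAT.CLO.tr c i (G (Pool.PB.ptr F J ω) i) - Pool.STAT.CLO.tr c i (H (Pool.KSAT.slam F w₀ ω) i) := ⟨_, rfl⟩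
  have h3 : eval b (Pool.STAT.CLO.Gs c n a G (Pool.PB.ptr F J ω) (i + 1)) - eval b (Pool.STAT.CLO.Hs c n H (Pool.KSAT.slam F w₀ ω) (i + 1)) =
      eval b D := by
    unfold Pool.STAT.CLO.Gs Pool.STAT.CLO.Hs
    rw [Pool.STAT.CLO.sy_succ (by omega), Pool.STAT.CLO.sy_succ (by omega), hD, map_sub]
  rw [h3, h2]
  have h4 := hdil (Pool.STAT.CLO.sy c n (F.t ω) (G (Pool.PB.ptr F J ω))) (Pool.STAT.CLO.gg a g) D (i + 1) (1 / 2 ^ g i) 2 Pool.STAT.CLO.sy_tri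
    (Pool.STAT.CLO.sy_deg (hGK _)) (by omega) (by
      rw [hD]
      exact Pool.STAT.AdxRow.vars_sub_le (Pool.STAT.CLO.tr_vars _ _ _) (Pool.STAT.CLO.tr_vars _ _ _)) (by
      rw [hD]
      exact (totalDegree_sub _ _).trans (max_le ((Pool.STAT.CLO.tr_deg _ _ _).trans (hGK _ _ (by omega)))
        ((Pool.STAT.CLO.tr_deg _ _ _).trans (hHK _ _ (by omega))))) (by norm_num) (fun b' hb' => by
      have h5 := Pool.STAT.CLO.nbx_of_bxr hc (h.depG _) (by omega) hb'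
      have h6 := h.agr ω hω i (by omega) _ h5
      have h7 : eval b' (Pool.STAT.CLO.tr c i (G (Pool.PB.ptr F J ω) i)) =
          eval (fun o => eval b' (Pool.STAT.CLO.vr c i o)) (G (Pool.PB.ptr F J ω) i) := by
        rw [← Pool.STAT.CLO.sy_succ (n := n) (t := 0) (by omega)]
        exact Pool.STAT.CLO.eval_sy hc (h.depG _) (by omega) b'
      have h8 : eval b' (Pool.STAT.CLO.tr c i (H (Pool.KSAT.slam F w₀ ω) i)) =
          eval (fun o => eval b' (Pool.STAT.CLO.vr c i o)) (H (Pool.KSAT.slam F w₀ ω) i) := by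
        rw [← Pool.STAT.CLO.sy_succ (n := n) (t := 0) (by omega)]
        exact Pool.STAT.CLO.eval_sy hc (h.depH _) (by omega) b'
      rw [hD, map_sub, h7, h8]
      exact h6) b h1
  refine h4.trans ?_
  rw [mul_one_div, div_mul_eq_mul_div]
  exact div_le_div_of_nonneg_right hs₀.le (by positivity)

/-- The samples are on the point side. -/
theorem pos_of (hc : Pool.STAT.CLO.Inj c n) (h : Pool.W.GEN.ChOK F c n Kv a w₀ e g A G H) {ω : F.Ω} (hω : A ω) {i : ℕ}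
    (hi1 : 1 ≤ i) (hi : i ≤ n) :
    |Pool.STAT.cx F (fun i => c (i - 1)) ω i -
      eval (Pool.STAT.cx F (fun i => c (i - 1)) ω) (Pool.STAT.CLO.Gs c n a G (Pool.PB.ptr F J ω) i)| ≤ 1 / 2 ^ Pool.STAT.CLO.gg a g i := by
  obtain ⟨i, rfl⟩ : ∃ i', i = i' + 1 := ⟨i - 1, by omega⟩
  have h1 : Pool.STAT.cx F (fun i => c (i - 1)) ω (i + 1) = F.x ω (c i) := if_neg (by omega)
  have h2 : Pool.STAT.CLO.gg a g (i + 1) = g i := if_neg (by omega)
  unfold Pool.STAT.CLO.Gs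
  rw [h1, h2, Pool.STAT.CLO.sy_succ (by omega), Pool.STAT.CLO.eval_tr (B := Pool.GEN.bt F ω) hc (by omega) (h.depG _ i)
    (by
      show F.t ω = _
      exact (if_pos rfl).symm) (fun l hl => by
      show F.x ω (c l) = _
      exact (if_neg (by omega)).symm)]
  exact h.pos ω hω i (by omega)

end raw


/-- **From chains to exact labels (row N1).** The event `B` has probability at least a constant
times the probability of `A`; the precisions decrease by `sh` digits. The closed polynomials are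
near the point sides of the chains on all dilated natural boxes. -/
theorem clo_fam (n K : ℕ) : ∃ (sh K' s₀ : ℕ) (C₁ : ℝ), 0 ≤ C₁ ∧ 1 ≤ K' ∧ ∀ (m J M w₀ z : ℕ)
    (F : Pool.KA.Fam m J) (c : ℕ → Fin m) (Kv : ℕ → ℕ → ℕ) (e : ℕ → ℕ) (g : ℕ → ℕ → ℕ) (A : F.Ω → Prop)
    (G : ℕ → Pool.GEN.PtT F → ℕ → MvPolynomial (Option (Fin m)) ℝ)
    (H : ℕ → Pool.GEN.LnT F → ℕ → MvPolynomial (Option (Fin m)) ℝ), 1 ≤ z → w₀ + M * z ≤ J → Pool.STAT.CLO.Inj c n →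
    (∀ k ≤ M, ∀ i < n, Kv k i ≤ K) → (∀ k ≤ M, ∀ i < n, sh ≤ g k i) →
    (∀ k ≤ M, Pool.W.GEN.ChOK F c n (Kv k) (w₀ + k * z) w₀ (e k) (g k) A (G k) (H k)) →
    ∃ (C : Pool.STAT.CDat F) (B : F.Ω → Prop), Pool.K2S.Sub B A ∧ Pool.K2S.Pe F.p A ≤ K' ^ (M + 1) * Pool.K2S.Pe F.p B ∧
      C.Cnd (fun i => c (i - 1)) n K' w₀ z M (fun k i => g k (i - 1) - sh) C₁ B ∧
      C.R = Pool.STAT.CLO.Hs c n (H M) ∧
      (∀ k ≤ M, ∀ ω, B ω → ∀ i, 1 ≤ i → i ≤ n → ∀ b : ℕ → ℝ,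
        Pool.STAT.Bx (Pool.STAT.CDat.g0 w₀ z (fun k i => g k (i - 1) - sh) k) (C.Ph w₀ z k ω) i b →
        |eval b (Pool.STAT.CLO.Hs c n (H k) (Pool.KSAT.slam F w₀ ω) i) - eval b (C.Ph w₀ z k ω i)| ≤
          Real.exp (C₁ * z) / 2 ^ (g k (i - 1) - sh)) ∧
      ∀ k ≤ M, ∀ ω, B ω → Pool.STAT.CLO.Nr K' (2 ^ s₀) (Pool.STAT.CLO.gg (w₀ + k * z) (g k)) (C.Ph w₀ z k ω)
        (Pool.STAT.CLO.Gs c n (w₀ + k * z) (G k) (Pool.PB.ptr F J ω)) (n + 1) := by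
  classical
  obtain ⟨s₀, hraw⟩ := Pool.W.STAT.CLO.raw_of n K
  obtain ⟨a, c', hc', hclo⟩ := Pool.STAT.CLO.clo_all n K
  refine ⟨a * (s₀ + 1), max K c', s₀, c' * (s₀ + 1), by positivity, hc'.trans (le_max_right _ _),
    ?_⟩
  intro m J M w₀ z F c Kv e g A G H hz hM hc hKv hg h
  have hak : ∀ k ≤ M, w₀ + k * z ≤ J := fun k hk => by
    have : k * z ≤ M * z := Nat.mul_le_mul_right _ hk
    omega
  obtain ⟨sh, hsh⟩ : ∃ sh, sh = a * (s₀ + 1) := ⟨_, rfl⟩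
  rw [← hsh] at hg ⊢
  obtain ⟨Z, Z', P, B, hB, hPe, hL⟩ := hclo M F.Ω (Pool.GEN.PtT F) (Pool.GEN.LnT F) F.p s₀ A (Pool.PB.ptr F J)
    (fun k => Pool.KSAT.slam F (w₀ + k * z)) (fun k => Pool.STAT.CLO.tp (w₀ + k * z)) (fun k => Pool.STAT.CLO.tl (w₀ + k * z))
    (fun k => Pool.STAT.CLO.gg (w₀ + k * z) (g k)) (fun k => Pool.STAT.CLO.Gs c n (w₀ + k * z) (G k))
    (fun k s => Pool.STAT.CLO.Hs c n (H k) (Pool.STAT.CLO.crs w₀ (w₀ + k * z) s)) (Pool.STAT.cx F (fun i => c (i - 1))) F.isLaw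
    (fun k hk => hraw m J F c (Kv k) (w₀ + k * z) w₀ (e k) (g k) A (G k) (H k) (by omega)
      (hak k hk) hc (hKv k hk) (h k hk))
    (fun k hk ω hω => by
      have h1 : Pool.STAT.cx F (fun i => c (i - 1)) ω 0 = F.t ω := if_pos rfl
      have h2 : Pool.STAT.CLO.gg (w₀ + k * z) (g k) 0 = w₀ + k * z := if_pos rfl
      unfold Pool.STAT.CLO.Gs
      rw [h1, h2, Pool.STAT.CLO.sy_zero, eval_C, Pool.STAT.CLO.tp_eq]
      exact Pool.STAT.CLO.t_cell F (hak k hk) ω)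
    (fun k hk ω hω i hi1 hi => (Pool.W.STAT.CLO.pos_of hc (h k hk) hω hi1 hi).trans
      (div_le_div_of_nonneg_right (one_le_pow₀ (by norm_num)) (by positivity)))
    (fun k hk i hi1 hi => by
      have h1 : Pool.STAT.CLO.gg (w₀ + k * z) (g k) i = g k (i - 1) := if_neg (by omega)
      rw [h1, ← hsh]
      exact hg k hk (i - 1) (by omega))
  rw [← hsh] at hL
  -- the system of the labels
  have hPh : ∀ k ≤ M, ∀ ω, B ω →
      (Pool.STAT.CLO.cd F Z Z' P (Pool.STAT.CLO.Hs c n (H M))).Ph w₀ z k ω = P k (Z k (Pool.PB.ptr F J ω)) := by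
    intro k hk ω hω
    obtain ⟨h1, -⟩ := hL k hk
    funext i
    have h2 : Z k (Pool.PB.ptr F J ω) = Z' k (Pool.KSAT.slam F (w₀ + k * z) ω) := h1.cls ω hω
    unfold Pool.STAT.CDat.Ph
    split_ifs with hi
    · rw [hi, h1.zero, h1.fst, Pool.STAT.CLO.tp_eq]
    · rw [h2]
      rfl
  have hgs : ∀ k i, Pool.STAT.CLO.gs sh (Pool.STAT.CLO.gg (w₀ + k * z) (g k)) i =
      Pool.STAT.CDat.g0 w₀ z (fun k i => g k (i - 1) - sh) k i := by
    intro k i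
    unfold Pool.STAT.CLO.gs Pool.STAT.CDat.g0
    split_ifs with hi
    · exact if_pos rfl
    · have h1 : Pool.STAT.CLO.gg (w₀ + k * z) (g k) i = g k (i - 1) := if_neg hi
      rw [h1]
  have hgs' : ∀ k, Pool.STAT.CLO.gs sh (Pool.STAT.CLO.gg (w₀ + k * z) (g k)) =
      Pool.STAT.CDat.g0 w₀ z (fun k i => g k (i - 1) - sh) k := fun k => funext (hgs k)
  have hline : ∀ k ≤ M, ∀ ω, B ω → ∀ i, 1 ≤ i → i ≤ n → ∀ b : ℕ → ℝ,
      Pool.STAT.Bx (Pool.STAT.CDat.g0 w₀ z (fun k i => g k (i - 1) - sh) k)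
        ((Pool.STAT.CLO.cd F Z Z' P (Pool.STAT.CLO.Hs c n (H M))).Ph w₀ z k ω) i b →
      |eval b (Pool.STAT.CLO.Hs c n (H k) (Pool.KSAT.slam F w₀ ω) i) -
        eval b ((Pool.STAT.CLO.cd F Z Z' P (Pool.STAT.CLO.Hs c n (H M))).Ph w₀ z k ω i)| ≤
        Real.exp (c' * (s₀ + 1) * z) / 2 ^ (g k (i - 1) - sh) := by
    intro k hk ω hω i hi1 hi b hb
    obtain ⟨h1, -⟩ := hL k hk
    rw [hPh k hk ω hω] at hb ⊢
    rw [← hgs' k] at hb
    have h2 := h1.line ω hω i hi1 hi b hb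
    rw [Pool.STAT.CLO.crs_eq F (by omega) (hak k hk) ω, hgs k i] at h2
    have h3 : Pool.STAT.CDat.g0 w₀ z (fun k i => g k (i - 1) - sh) k i = g k (i - 1) - sh :=
      if_neg (by omega)
    rw [h3] at h2
    refine h2.trans (div_le_div_of_nonneg_right ?_ (by positivity))
    have h4 : (2 : ℝ) ^ (c' * (s₀ + 1)) ≤ Real.exp (c' * (s₀ + 1)) := by
      have h5 : (2 : ℝ) ≤ Real.exp 1 := by
        have := Real.add_one_le_exp (1 : ℝ)
        linarith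
      calc (2 : ℝ) ^ (c' * (s₀ + 1)) ≤ Real.exp 1 ^ (c' * (s₀ + 1)) :=
            pow_le_pow_left₀ (by norm_num) h5 _
        _ = Real.exp (c' * (s₀ + 1)) := by
            rw [← Real.exp_nat_mul]
            congr 1
            push_cast
            ring
    refine h4.trans (Real.exp_le_exp.2 ?_)
    have h6 : (1 : ℝ) ≤ z := by exact_mod_cast hz
    have h7 : (0 : ℝ) ≤ c' * (s₀ + 1) := by positivity
    nlinarith
  refine ⟨Pool.STAT.CLO.cd F Z Z' P (Pool.STAT.CLO.Hs c n (H M)), B, hB, ?_, ?_, rfl, hline, fun k hk ω hω => ?_⟩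
  · refine hPe.trans (mul_le_mul_of_nonneg_right ?_ (Pool.K2S.Pe_nonneg F.isLaw _))
    refine pow_le_pow_left₀ (Nat.cast_nonneg _) ?_ _
    exact_mod_cast le_max_right K c'
  · refine ⟨fun k hk v i _ _ => ((hL k hk).1.deg v i).trans (le_max_right _ _),
      fun k hk v i _ _ => (hL k hk).1.tri v i, fun l i _ _ => ?_, fun l i _ _ => Pool.STAT.CLO.sy_tri i,
      fun k hk ω hω => (hL k hk).1.cls ω hω, fun k hk ω hω i hi1 hi => ?_, ?_⟩
    · refine (Pool.STAT.CLO.sy_deg (K := K) (fun i hi => ?_) i).trans (le_max_left _ _)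
      exact ((h M le_rfl).degH _ i).trans (hKv M le_rfl i hi)
    · have h1 := (hL k hk).1.hgt ω hω i hi
      rw [hgs k i] at h1
      have h3 : Pool.STAT.CDat.g0 w₀ z (fun k i => g k (i - 1) - sh) k i = g k (i - 1) - sh :=
        if_neg (by omega)
      rw [h3] at h1
      have h4 : Pool.STAT.cx F (fun i => c (i - 1)) ω i = F.x ω (c (i - 1)) := if_neg (by omega)
      rw [hPh k hk ω hω, ← h4]
      exact h1
    · intro ω hω i hi1 hi b hb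
      exact hline M le_rfl ω hω i hi1 hi b hb
  · rw [hPh k hk ω hω]
    have h1 : (1 : ℝ) ≤ 2 ^ s₀ := one_le_pow₀ (by norm_num)
    exact ((hL k hk).2 ω hω).mono_c hc' h1 (le_max_right _ _)

end CLO

end Pool.W.STAT
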