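import Pool.Agent.H63.STAT.CloG
import Pool.Agent.H3.W2.H63.STAT.CloL
import Pool.Agent.H3.W.Nlp
import Pool.Agent.H31.W1.H80.GEN.Chn

/-!
# The gradients of the exact labels

The closed polynomials of `clo_fam` have natural gradients on their dilated natural boxes, as the
polynomials of the chains.
-/

set_option autoImplicit false

namespace Pool.W.STAT

open Pool.STAT

open Finset MvPolynomial
open Pool.Agent.H49.Ent Pool.Agent.H32.Dense Pool.STK Pool.KS3 Pool.KA Pool.KSAT Pool.PB Pool.GEN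
open Pool.K2S

variable {m J : ℕ}

namespace CLO

open Pool.STAT.CLO


/-- The natural exponents do not change if all precisions decrease by `sh`. -/
theorem nlp_sh {g γ : ℕ → ℕ} {n sh l j : ℕ} (hγ : ∀ i, 1 ≤ i → i ≤ n → γ i = g (i - 1) - sh)
    (hsh : ∀ i < n, sh ≤ g i) (hl : l < j) (hj : j < n) :
    Pool.W.GEN.nlp g l j ≤ Pool.W.GEN.nlp γ (l + 1) (j + 1) := by
  obtain ⟨q, hq, hq2⟩ := Finset.exists_mem_eq_sup (Finset.range (j + 1)) ⟨l, Finset.mem_range.2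
    (by omega)⟩ g
  have h1 := Finset.mem_range.1 hq
  have h2 : γ (q + 1) ≤ (Finset.range ((j + 1) + 1)).sup γ :=
    Finset.le_sup (f := γ) (Finset.mem_range.2 (by omega))
  have h3 := hγ (q + 1) (by omega) (by omega)
  have h4 := hγ (j + 1) (by omega) (by omega)
  have h5 := hsh q (by omega)
  have h6 := hsh j hj
  rw [Nat.add_sub_cancel] at h3 h4
  unfold Pool.W.GEN.nlp
  rw [hq2]
  omega

/-- **The gradients of the exact labels of one level**, on the natural boxes dilated by `2`. -/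
theorem lip_lev (n K K' s₀ sh : ℕ) (hK' : 1 ≤ K') : ∃ c₃ : ℕ, ∀ (m J M w₀ z k e : ℕ)
    (F : Pool.KA.Fam m J) (c : ℕ → Fin m) (Kv : ℕ → ℕ) (g : ℕ → ℕ) (γ : ℕ → ℕ → ℕ) (A B : F.Ω → Prop)
    (G : Pool.GEN.PtT F → ℕ → MvPolynomial (Option (Fin m)) ℝ)
    (H : Pool.GEN.LnT F → ℕ → MvPolynomial (Option (Fin m)) ℝ) (C : Pool.STAT.CDat F) (C₁ : ℝ), k ≤ M →
    w₀ + k * z ≤ J → Pool.STAT.CLO.Inj c n → (∀ i < n, Kv i ≤ K) →
    Pool.W.GEN.ChOK F c n Kv (w₀ + k * z) w₀ e g A G H → Pool.K2S.Sub B A →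
    C.Cnd (fun i => c (i - 1)) n K' w₀ z M γ C₁ B → (∀ i, 1 ≤ i → i ≤ n → γ k i = g (i - 1) - sh) →
    (∀ i < n, sh ≤ g i) →
    (∀ ω, B ω → Pool.STAT.CLO.Nr K' (2 ^ s₀) (Pool.STAT.CLO.gg (w₀ + k * z) g) (C.Ph w₀ z k ω)
      (Pool.STAT.CLO.Gs c n (w₀ + k * z) G (Pool.PB.ptr F J ω)) (n + 1)) →
    ∀ ω, B ω → ∀ l j, 1 ≤ l → l < j → j ≤ n → ∀ b : ℕ → ℝ,
      Pool.STAT.CLO.Bxr 2 (Pool.STAT.CDat.g0 w₀ z γ k) (C.Ph w₀ z k ω) j b →
      |eval b (pderiv l (C.Ph w₀ z k ω j))| ≤ 2 ^ (e + c₃ + Pool.W.GEN.nlp (γ k) l j) := by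
  obtain ⟨C₁, hC₁, hdil⟩ := Pool.STAT.CLO.dil n K
  obtain ⟨K₁, hK₁⟩ : ∃ K₁, K₁ = K * (K + 1) ^ (n + 1) := ⟨_, rfl⟩
  rw [← hK₁] at hdil
  obtain ⟨Cg, Kg, hCg, hng⟩ := Pool.STAT.CLO.ngd n (max K K')
  obtain ⟨M', hM'⟩ := Pool.STAT.CLO.cc_le K' n
  obtain ⟨R, hR⟩ : ∃ R : ℝ, R = (2 * K' * 2 ^ s₀ * 2 ^ (sh + 1)) ^ M' := ⟨_, rfl⟩
  have hKr : (1 : ℝ) ≤ K' := by exact_mod_cast hK'
  have hs1 : (1 : ℝ) ≤ 2 ^ s₀ := one_le_pow₀ (by norm_num)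
  have hRb : (1 : ℝ) ≤ 2 * K' * 2 ^ s₀ * 2 ^ (sh + 1) := by
    have h2 : (1 : ℝ) ≤ 2 ^ (sh + 1) := one_le_pow₀ (by norm_num)
    have h3 : (1 : ℝ) ≤ 2 * K' := by linarith
    have h4 : (1 : ℝ) ≤ 2 * K' * 2 ^ s₀ := by nlinarith
    nlinarith
  have hR1 : 1 ≤ R := by
    rw [hR]
    exact one_le_pow₀ hRb
  obtain ⟨U, hU⟩ : ∃ U : ℝ, U = C₁ * (R + 1) ^ K₁ := ⟨_, rfl⟩
  have hU1 : 1 ≤ U := by
    rw [hU]
    have h1 : (1 : ℝ) ≤ (R + 1) ^ K₁ := one_le_pow₀ (by linarith)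
    nlinarith
  obtain ⟨S, hS⟩ : ∃ S : ℝ, S = (K' * 2 ^ s₀ * 2) ^ K' := ⟨_, rfl⟩
  have hS0 : 0 ≤ S := by
    rw [hS]
    positivity
  obtain ⟨c₃, hc₃⟩ := pow_unbounded_of_one_lt (U * (1 + Cg * S * (R + 1) ^ Kg))
    (one_lt_two (α := ℝ))
  refine ⟨c₃, ?_⟩
  intro m J M w₀ z k e F c Kv g γ A B G H C C₁' hk ha hc hKv h hB hC hγ hsh hN ω hω l j hl hlj hj b
    hb
  obtain ⟨a, haa⟩ : ∃ a, a = w₀ + k * z := ⟨_, rfl⟩
  rw [← haa] at ha h hN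
  have hGK : ∀ y, ∀ i < n, (G y i).totalDegree ≤ K := fun y i hi => (h.degG y i).trans (hKv i hi)
  obtain ⟨Φ, hΦ⟩ : ∃ Φ, Φ = Pool.STAT.CLO.sy c n (F.t ω) (G (Pool.PB.ptr F J ω)) := ⟨_, rfl⟩
  have hΦt : Pool.STAT.TriN Φ := by
    rw [hΦ]
    exact Pool.STAT.CLO.sy_tri
  have hΦd : ∀ i, (Φ i).totalDegree ≤ K := by
    rw [hΦ]
    exact Pool.STAT.CLO.sy_deg (hGK _)
  have h0s : (0 : ℝ) < 2 ^ a := by positivity
  have hg0 : Pool.STAT.CLO.gg a g 0 = a := if_pos rfl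
  have hgj : ∀ i, 1 ≤ i → Pool.STAT.CLO.gg a g i = g (i - 1) := fun i hi => if_neg (by omega)
  -- the point is in the dilated box of the chain
  have hb1 : Pool.STAT.CLO.Bxr (2 ^ (sh + 1)) (Pool.STAT.CLO.gg a g) (C.Ph w₀ z k ω) j b := by
    intro i hi
    have h1 := hb i hi
    rcases Nat.eq_zero_or_pos i with rfl | hi0
    · have h2 : Pool.STAT.CDat.g0 w₀ z γ k 0 = a := by
        rw [haa]
        exact if_pos rfl
      rw [h2] at h1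
      rw [hg0]
      refine h1.trans (div_le_div_of_nonneg_right ?_ h0s.le)
      exact le_self_pow₀ (by norm_num) (by omega)
    · have h2 : Pool.STAT.CDat.g0 w₀ z γ k i = g (i - 1) - sh := by
        rw [← hγ i hi0 (by omega)]
        exact if_neg (by omega)
      rw [h2] at h1
      rw [hgj i hi0]
      refine h1.trans ?_
      rw [div_le_div_iff₀ (by positivity) (by positivity), ← pow_succ', ← pow_add]
      exact pow_le_pow_right₀ (by norm_num) (by omega)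
  have hb2 : Pool.STAT.CLO.Bxr R (Pool.STAT.CLO.gg a g) (Pool.STAT.CLO.Gs c n a G (Pool.PB.ptr F J ω)) j b := by
    have h1 := ((hN ω hω).mono (i' := j) (by omega)).box hK' hs1
      (one_le_pow₀ (by norm_num : (1 : ℝ) ≤ 2)) hb1 j le_rfl
    refine h1.mono ?_ le_rfl
    rw [hR]
    exact pow_le_pow_right₀ hRb (hM' j hj)
  have hcell : ∀ x : ℝ, ∀ ρ : ℝ, |x - (F.T1 a ω : ℝ) / 2 ^ a| ≤ ρ / 2 ^ a →
      |x - F.t ω| ≤ (ρ + 1) / 2 ^ a := by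
    intro x ρ hx
    have h4 := Pool.STAT.CLO.t_cell F ha ω
    rw [add_div]
    rw [abs_le] at hx h4 ⊢
    constructor <;> linarith [hx.1, hx.2, h4.1, h4.2]
  have hcell' : ∀ x : ℝ, |x - F.t ω| ≤ 1 / 2 ^ a → |x - (F.T1 a ω : ℝ) / 2 ^ a| ≤ 2 / 2 ^ a := by
    intro x hx
    have h4 := Pool.STAT.CLO.t_cell F ha ω
    have h5 : (2 : ℝ) / 2 ^ a = 1 / 2 ^ a + 1 / 2 ^ a := by ring
    rw [h5]
    rw [abs_le] at hx h4 ⊢
    constructor <;> linarith [hx.1, hx.2, h4.1, h4.2]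
  have hGs0 : Pool.STAT.CLO.Gs c n a G (Pool.PB.ptr F J ω) 0 = MvPolynomial.C ((F.T1 a ω : ℝ) / 2 ^ a) := by
    unfold Pool.STAT.CLO.Gs
    rw [Pool.STAT.CLO.sy_zero, Pool.STAT.CLO.tp_eq]
  have hb3 : ∀ i < j, |b i - eval b (Φ i)| ≤ (R + 1) / 2 ^ Pool.STAT.CLO.gg a g i := by
    intro i hi
    rcases Nat.eq_zero_or_pos i with rfl | hi0
    · have h1 := hb2 0 hi
      rw [hGs0, eval_C, hg0] at h1
      rw [hΦ, Pool.STAT.CLO.sy_zero, eval_C, hg0]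
      exact hcell _ _ h1
    · have h1 := hb2 i hi
      obtain ⟨i, rfl⟩ : ∃ i', i = i' + 1 := ⟨i - 1, by omega⟩
      unfold Pool.STAT.CLO.Gs at h1
      rw [hΦ]
      rw [Pool.STAT.CLO.sy_succ (by omega)] at h1 ⊢
      exact h1.trans (div_le_div_of_nonneg_right (by linarith) (by positivity))
  -- the gradients of the chain
  obtain ⟨l, rfl⟩ : ∃ l', l = l' + 1 := ⟨l - 1, by omega⟩
  have hGr : ∀ q, l < q → q + 1 ≤ j →
      |eval b (pderiv (l + 1) (Φ (q + 1)))| ≤ U * 2 ^ (e + Pool.W.GEN.nlp g l q) := by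
    intro q hq1 hq2
    have h1 : Φ (q + 1) = Pool.STAT.CLO.tr c q (G (Pool.PB.ptr F J ω) q) := by
      rw [hΦ]
      exact Pool.STAT.CLO.sy_succ (by omega)
    rw [h1]
    have h2 := hdil Φ (Pool.STAT.CLO.gg a g) (pderiv (l + 1) (Pool.STAT.CLO.tr c q (G (Pool.PB.ptr F J ω) q))) (q + 1)
      (2 ^ (e + Pool.W.GEN.nlp g l q)) (R + 1) hΦt hΦd (by omega) ((Pool.STAT.NEAR.vars_pd _ _).trans (Pool.STAT.CLO.tr_vars _ _ _))
      (Pool.STAT.NEAR.deg_pd ((Pool.STAT.CLO.tr_deg _ _ _).trans (hGK _ _ (by omega))) _) (by linarith)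
      (fun b' hb' => by
        rw [hΦ] at hb'
        have h5 := Pool.STAT.CLO.nbx_of_bxr hc (h.depG _) (by omega) hb'
        rw [Pool.STAT.CLO.pd_trL hc (by omega) (by omega) (h.depG _ q)]
        exact h.lip ω (hB ω hω) q (by omega) _ h5 l (by omega)) b
      (fun i hi => hb3 i (by omega))
    refine h2.trans (le_of_eq ?_)
    rw [hU]
    ring
  -- the polynomials
  have hPG : C.Ph w₀ z k ω j = C.G k (C.li k (Pool.KSAT.slam F (w₀ + k * z) ω)) j := if_neg (by omega)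
  obtain ⟨q, rfl⟩ : ∃ q, j = q + 1 := ⟨j - 1, by omega⟩
  obtain ⟨D, hD⟩ : ∃ D, D = C.Ph w₀ z k ω (q + 1) - Φ (q + 1) := ⟨_, rfl⟩
  have hGsj : Pool.STAT.CLO.Gs c n a G (Pool.PB.ptr F J ω) (q + 1) = Φ (q + 1) := by
    rw [hΦ]
    unfold Pool.STAT.CLO.Gs
    rw [Pool.STAT.CLO.sy_succ (by omega), Pool.STAT.CLO.sy_succ (by omega)]
  have hDv : D.vars ⊆ range (q + 1) := by
    rw [hD]
    refine Pool.STAT.AdxRow.vars_sub_le ?_ (hΦt _)
    rw [hPG]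
    exact hC.tri k hk _ _ (by omega) hj
  have hDd : D.totalDegree ≤ max K K' := by
    rw [hD]
    refine (totalDegree_sub _ _).trans (max_le ?_ ((hΦd _).trans (le_max_left _ _)))
    rw [hPG]
    exact (hC.deg k hk _ _ (by omega) hj).trans (le_max_right _ _)
  have hDs : ∀ b, Pool.STAT.Bx (Pool.STAT.CLO.gg a g) Φ (q + 1) b → |eval b D| ≤ S / 2 ^ g q := by
    intro b' hb'
    have h1 : Pool.STAT.CLO.Bxr 2 (Pool.STAT.CLO.gg a g) (Pool.STAT.CLO.Gs c n a G (Pool.PB.ptr F J ω)) (q + 1) b' := by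
      intro i hi
      have h2 := hb' i hi
      rcases Nat.eq_zero_or_pos i with rfl | hi0
      · rw [hΦ, Pool.STAT.CLO.sy_zero, eval_C, hg0] at h2
        rw [hGs0, eval_C, hg0]
        exact hcell' _ h2
      · obtain ⟨i, rfl⟩ : ∃ i', i = i' + 1 := ⟨i - 1, by omega⟩
        rw [hΦ] at h2
        unfold Pool.STAT.CLO.Gs
        rw [Pool.STAT.CLO.sy_succ (by omega)] at h2 ⊢
        exact h2.trans (div_le_div_of_nonneg_right (by norm_num) (by positivity))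
    have h2 := (hN ω hω).2 (q + 1) (by omega) (by omega) 2 (by norm_num) b' h1
    rw [hGsj, hgj (q + 1) (by omega), Nat.add_sub_cancel, ← hS] at h2
    rw [hD, map_sub]
    exact h2
  have hsup : ∀ r, r ≤ q → (Finset.range (r + 1)).sup g ≤ (Finset.range (q + 1)).sup g := fun r hr =>
    Finset.sup_mono (Finset.range_mono (by omega))
  have hgs : ∀ r, l ≤ r → r ≤ q → g r ≤ (Finset.range (q + 1)).sup g := fun r _ h2 =>
    Finset.le_sup (f := g) (Finset.mem_range.2 (by omega))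
  have hD1 := hng (q + 1) hj Φ (Pool.STAT.CLO.gg a g) D (S / 2 ^ g q) (U * 2 ^ (e + (Finset.range (q + 1)).sup g))
    (R + 1) (l + 1) b hΦt (fun i _ => (hΦd i).trans (le_max_left _ _)) hDd hDv hDs (by positivity)
    (by linarith) hb3 (by positivity) (fun h1 => by
      rw [hgj (l + 1) (by omega), Nat.add_sub_cancel]
      have h2 : (2 : ℝ) ^ g l ≤ 2 ^ (e + (Finset.range (q + 1)).sup g) :=
        pow_le_pow_right₀ (by norm_num) (by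
          have := hgs l le_rfl (by omega)
          omega)
      have h3 : (0 : ℝ) < 2 ^ (e + (Finset.range (q + 1)).sup g) := by positivity
      nlinarith)
    (fun i hi1 hi2 => by
      obtain ⟨i, rfl⟩ : ∃ i', i = i' + 1 := ⟨i - 1, by omega⟩
      rw [hgj (i + 1) (by omega), Nat.add_sub_cancel]
      have h2 := hGr i (by omega) (by omega)
      have h3 : (0 : ℝ) < 2 ^ g i := by positivity
      refine (mul_le_mul_of_nonneg_left h2 h3.le).trans ?_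
      have h4 : (2 : ℝ) ^ g i * (U * 2 ^ (e + Pool.W.GEN.nlp g l i)) = U * 2 ^ (g i + (e + Pool.W.GEN.nlp g l i)) := by
        rw [pow_add]
        ring
      rw [h4]
      refine mul_le_mul_of_nonneg_left (pow_le_pow_right₀ (by norm_num) ?_) (by linarith)
      have h5 : g i ≤ (Finset.range (i + 1)).sup g :=
        Finset.le_sup (f := g) (Finset.mem_range.2 (by omega))
      have h6 := hsup i (by omega)
      unfold Pool.W.GEN.nlp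
      omega)
  have hE : (0 : ℝ) < 2 ^ (e + Pool.W.GEN.nlp g l q) := by positivity
  have hD2 : Cg * (S / 2 ^ g q) * (R + 1) ^ Kg * (U * 2 ^ (e + (Finset.range (q + 1)).sup g)) =
      U * (Cg * S * (R + 1) ^ Kg) * 2 ^ (e + Pool.W.GEN.nlp g l q) := by
    have h1 : (2 : ℝ) ^ (e + (Finset.range (q + 1)).sup g) = 2 ^ g q * 2 ^ (e + Pool.W.GEN.nlp g l q) := by
      rw [← pow_add]
      congr 1
      have h2 := hgs q (by omega) le_rfl
      unfold Pool.W.GEN.nlp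
      omega
    rw [h1]
    have h3 : (2 : ℝ) ^ g q ≠ 0 := by positivity
    field_simp
  rw [hD2] at hD1
  have hP1 : eval b (pderiv (l + 1) (C.Ph w₀ z k ω (q + 1))) =
      eval b (pderiv (l + 1) (Φ (q + 1))) + eval b (pderiv (l + 1) D) := by
    rw [hD, map_sub, map_sub]
    ring
  rw [hP1]
  refine (abs_add_le _ _).trans ((add_le_add (hGr q (by omega) le_rfl) hD1).trans ?_)
  calc U * 2 ^ (e + Pool.W.GEN.nlp g l q) + U * (Cg * S * (R + 1) ^ Kg) * 2 ^ (e + Pool.W.GEN.nlp g l q) =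
        U * (1 + Cg * S * (R + 1) ^ Kg) * 2 ^ (e + Pool.W.GEN.nlp g l q) := by ring
    _ ≤ 2 ^ c₃ * 2 ^ (e + Pool.W.GEN.nlp g l q) := mul_le_mul_of_nonneg_right hc₃.le hE.le
    _ = 2 ^ (e + c₃ + Pool.W.GEN.nlp g l q) := by rw [← pow_add]; congr 1; ring
    _ ≤ 2 ^ (e + c₃ + Pool.W.GEN.nlp (γ k) (l + 1) (q + 1)) := by
        refine pow_le_pow_right₀ (by norm_num) (Nat.add_le_add_left ?_ _)
        exact Pool.W.STAT.CLO.nlp_sh (n := n) hγ hsh (by omega) (by omega)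

/-- **From chains to exact labels**: `clo_fam` with the variation `Vr` in small cells and with the
gradients on the dilated natural boxes. -/
theorem clo_lip (n K : ℕ) : ∃ (sh K' s₀ c₁ : ℕ) (C₁ L : ℝ), 0 ≤ C₁ ∧ 1 ≤ L ∧ 1 ≤ K' ∧
    ∀ (m J M w₀ z : ℕ) (F : Pool.KA.Fam m J) (c : ℕ → Fin m) (Kv : ℕ → ℕ → ℕ) (e : ℕ → ℕ)
    (g : ℕ → ℕ → ℕ) (A : F.Ω → Prop) (G : ℕ → Pool.GEN.PtT F → ℕ → MvPolynomial (Option (Fin m)) ℝ)
    (H : ℕ → Pool.GEN.LnT F → ℕ → MvPolynomial (Option (Fin m)) ℝ), 1 ≤ z → w₀ + M * z ≤ J → Pool.STAT.CLO.Inj c n →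
    (∀ k ≤ M, ∀ i < n, Kv k i ≤ K) → (∀ k ≤ M, ∀ i < n, sh ≤ g k i) →
    (∀ k ≤ M, Pool.W.GEN.ChOK F c n (Kv k) (w₀ + k * z) w₀ (e k) (g k) A (G k) (H k)) →
    ∃ (C : Pool.STAT.CDat F) (B : F.Ω → Prop), Pool.K2S.Sub B A ∧ Pool.K2S.Pe F.p A ≤ K' ^ (M + 1) * Pool.K2S.Pe F.p B ∧
      C.Cnd (fun i => c (i - 1)) n K' w₀ z M (fun k i => g k (i - 1) - sh) C₁ B ∧
      C.R = Pool.STAT.CLO.Hs c n (H M) ∧
      (∀ k ≤ M, ∀ ω, B ω → ∀ i, 1 ≤ i → i ≤ n → ∀ b : ℕ → ℝ,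
        Pool.STAT.Bx (Pool.STAT.CDat.g0 w₀ z (fun k i => g k (i - 1) - sh) k) (C.Ph w₀ z k ω) i b →
        |eval b (Pool.STAT.CLO.Hs c n (H k) (Pool.KSAT.slam F w₀ ω) i) - eval b (C.Ph w₀ z k ω i)| ≤
          Real.exp (C₁ * z) / 2 ^ (g k (i - 1) - sh)) ∧
      (∀ k ≤ M, ∀ ω, B ω → Pool.STAT.CLO.Nr K' (2 ^ s₀) (Pool.STAT.CLO.gg (w₀ + k * z) (g k)) (C.Ph w₀ z k ω)
        (Pool.STAT.CLO.Gs c n (w₀ + k * z) (G k) (Pool.PB.ptr F J ω)) (n + 1)) ∧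
      (∀ k ≤ M, ∀ y : ℕ, (∀ i < n, e k + g k i + y + c₁ ≤ J) →
        C.Vr (fun i => c (i - 1)) n w₀ z k (fun k i => g k (i - 1) - sh) y L B) ∧
      ∀ k ≤ M, ∀ ω, B ω → ∀ l j, 1 ≤ l → l < j → j ≤ n → ∀ b : ℕ → ℝ,
        Pool.STAT.CLO.Bxr 2 (Pool.STAT.CDat.g0 w₀ z (fun k i => g k (i - 1) - sh) k) (C.Ph w₀ z k ω) j b →
        |eval b (pderiv l (C.Ph w₀ z k ω j))| ≤
          2 ^ (e k + c₁ + Pool.W.GEN.nlp (fun i => g k (i - 1) - sh) l j) := by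
  obtain ⟨sh, K', s₀, C₁, hC₁, hK', h⟩ := Pool.W.STAT.CLO.clo_fam n K
  obtain ⟨c₁, L, hL, hv⟩ := Pool.W.STAT.CLO.vr_lev n K K' s₀ sh hK'
  obtain ⟨c₃, hl⟩ := Pool.W.STAT.CLO.lip_lev n K K' s₀ sh hK'
  refine ⟨sh, K', s₀, c₁ + c₃, C₁, L, hC₁, hL, hK', ?_⟩
  intro m J M w₀ z F c Kv e g A G H hz hM hc hKv hg hCh
  obtain ⟨C, B, h1, h2, h3, h4, h5, h6⟩ := h m J M w₀ z F c Kv e g A G H hz hM hc hKv hg hCh
  have hak : ∀ k ≤ M, w₀ + k * z ≤ J := fun k hk => by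
    have : k * z ≤ M * z := Nat.mul_le_mul_right _ hk
    omega
  refine ⟨C, B, h1, h2, h3, h4, h5, h6, fun k hk y hy => ?_,
    fun k hk ω hω l j hl1 hlj hj b hb => ?_⟩
  · exact hv m J M w₀ z k (e k) y F c (Kv k) (g k) _ A B (G k) (H k) C C₁ hk (hak k hk) hc
      (hKv k hk) (hCh k hk) h1 h3 (fun i _ _ => rfl) (h6 k hk) fun i hi => by
        have := hy i hi
        omega
  · refine (hl m J M w₀ z k (e k) F c (Kv k) (g k) _ A B (G k) (H k) C C₁ hk (hak k hk) hc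
      (hKv k hk) (hCh k hk) h1 h3 (fun i _ _ => rfl) (hg k hk) (h6 k hk) ω hω l j hl1 hlj hj b
      hb).trans ?_
    exact pow_le_pow_right₀ (by norm_num) (by omega)

end CLO

end Pool.W.STAT
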